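import Pool.Agent.Q74.SF.Def

/-! # Project SF: JOB Conv -/

set_option autoImplicit false

namespace Pool.Agent.Q14.SF

open Finset
open Pool.Agent.Q74.KP
open Pool.Agent.Q74.AR (oc Td ocd ocd_eq oc_per exists_inv Td_iter)
open Pool.Agent.Q158.Pair (T)
open Pool.Agent.Q74.SF

variable {k : ℕ}

theorem Td_one : Td 1 = T := by
  funext x
  rfl

theorem T_sh (t : ℕ) (x j : ℤ) : T^[t] (x + 2 ^ t * j) = T^[t] x + 3 ^ oc t x * j := by
  have h := Td_iter (d := 1) rfl t x j
  rw [Td_one, one_mul, one_mul] at h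
  exact h

theorem Vv_shift (a : Fin k → ℕ) (b : Fin k → ℤ) (t : ℕ) (n e : ℤ) (i : Fin k) :
    Vv a b t (n + 2 ^ t * e) i =
      (Lv a b t n i, T^[t] (yy a b i n) + 3 ^ (oc t (yy a b i n) + a i) * e) := by
  unfold Vv
  rw [Lv_per]
  have h1 : yy a b i (n + 2 ^ t * e) = yy a b i n + 2 ^ t * (3 ^ a i * e) := by
    unfold yy
    ring
  rw [h1, T_sh, pow_add, mul_assoc]

theorem Vv_per_iff (a : Fin k → ℕ) (b : Fin k → ℤ) (t : ℕ) (n e : ℤ) (i j : Fin k) :
    Vv a b t (n + 2 ^ t * e) i = Vv a b t (n + 2 ^ t * e) j ↔ Vv a b t n i = Vv a b t n j := by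
  rw [Vv_shift, Vv_shift]
  have hi : Vv a b t n i = (Lv a b t n i, T^[t] (yy a b i n)) := rfl
  have hj : Vv a b t n j = (Lv a b t n j, T^[t] (yy a b j n)) := rfl
  rw [hi, hj, Prod.mk.injEq, Prod.mk.injEq]
  have key : Lv a b t n i = Lv a b t n j → oc t (yy a b i n) + a i = oc t (yy a b j n) + a j := by
    intro h1
    have h1' : (a i : ℤ) + oc t (yy a b i n) = (a j : ℤ) + oc t (yy a b j n) := h1
    omega
  constructor
  · rintro ⟨h1, h2⟩
    refine ⟨h1, ?_⟩
    rw [key h1] at h2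
    exact add_right_cancel h2
  · rintro ⟨h1, h2⟩
    refine ⟨h1, ?_⟩
    rw [key h1, h2]

theorem pat_congr {α β : Type} (π : Fin k → Fin k) {v : Fin k → α} {w : Fin k → β}
    (h : ∀ i j, v i = v j ↔ w i = w j) : pat π v = pat π w := by
  unfold pat
  have h2 : (∀ i j, v i = v j ↔ π i = π j) ↔ (∀ i j, w i = w j ↔ π i = π j) := by
    simp only [h]
  by_cases c : ∀ i j, v i = v j ↔ π i = π j
  · rw [if_pos c, if_pos (h2.1 c)]
  · rw [if_neg c, if_neg (fun h3 => c (h2.2 h3))]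

open Classical in
/-- an accidental meeting -/
noncomputable def acc1 (d w : ℤ) (a : Fin k → ℕ) (b : Fin k → ℤ) (t : ℕ) (p : Fin k × Fin k) (X : ℤ) : ℝ :=
  if Vv a b t (w * X) p.1 ≠ Vv a b t (w * X) p.2 ∧ Vd d a b t X p.1 = Vd d a b t X p.2 then 1 else 0

theorem acc1_nonneg (d w : ℤ) (a : Fin k → ℕ) (b : Fin k → ℤ) (t : ℕ) (p : Fin k × Fin k) (X : ℤ) :
    0 ≤ acc1 d w a b t p X := by unfold acc1; split_ifs <;> norm_num

section
variable {d : ℤ} (hd : d % 2 = 1) {t : ℕ} {w κ : ℤ} (hw : d * w + 2 ^ t * κ = 1)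
include hd hw

theorem Vd_of_Vv {a : Fin k → ℕ} {b : Fin k → ℤ} {X : ℤ} {i j : Fin k}
    (h : Vv a b t (w * X) i = Vv a b t (w * X) j) : Vd d a b t X i = Vd d a b t X j := by
  have h1 : (a i : ℤ) + oc t (yy a b i (w * X)) = (a j : ℤ) + oc t (yy a b j (w * X)) := congrArg Prod.fst h
  have h2 : T^[t] (yy a b i (w * X)) = T^[t] (yy a b j (w * X)) := congrArg Prod.snd h
  rw [V_eq hd hw, V_eq hd hw, h2]
  have h3 : oc t (yy a b i (w * X)) + a i = oc t (yy a b j (w * X)) + a j := by omega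
  have e1 : (3 : ℤ) ^ oc t (yy a b i (w * X)) * 3 ^ a i = 3 ^ oc t (yy a b j (w * X)) * 3 ^ a j := by
    rw [← pow_add, ← pow_add, h3]
  linear_combination (κ * X) * e1

theorem acc1_unique {a : Fin k → ℕ} {b : Fin k → ℤ} {i j : Fin k} {X e : ℤ}
    (h1 : Vv a b t (w * X) i ≠ Vv a b t (w * X) j) (h2 : Vd d a b t X i = Vd d a b t X j)
    (h3 : Vd d a b t (X + 2 ^ t * e) i = Vd d a b t (X + 2 ^ t * e) j) : e = 0 := by
  rw [V_shift hd hw, V_shift hd hw, h2] at h3
  have hdz : d ≠ 0 := by rintro rfl; omega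
  have i4 : ((3 : ℤ) ^ (oc t (yy a b i (w * X)) + a i) - 3 ^ (oc t (yy a b j (w * X)) + a j)) * e = 0 := by
    rw [pow_add, pow_add]
    linear_combination h3
  rcases mul_eq_zero.1 i4 with i5 | i5
  · exfalso
    have i6 : oc t (yy a b i (w * X)) + a i = oc t (yy a b j (w * X)) + a j := by
      simpa using sub_eq_zero.1 i5
    apply h1
    have hi : Vv a b t (w * X) i = ((a i : ℤ) + oc t (yy a b i (w * X)), T^[t] (yy a b i (w * X))) := rfl
    have hj : Vv a b t (w * X) j = ((a j : ℤ) + oc t (yy a b j (w * X)), T^[t] (yy a b j (w * X))) := rfl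
    rw [hi, hj, Prod.mk.injEq]
    refine ⟨by omega, ?_⟩
    rw [V_eq hd hw, V_eq hd hw] at h2
    have e1 : (3 : ℤ) ^ oc t (yy a b i (w * X)) * 3 ^ a i = 3 ^ oc t (yy a b j (w * X)) * 3 ^ a j := by
      rw [← pow_add, ← pow_add, i6]
    have i8 : d * (T^[t] (yy a b i (w * X)) - T^[t] (yy a b j (w * X))) = 0 := by
      linear_combination h2 - (κ * X) * e1
    exact sub_eq_zero.1 ((mul_eq_zero.1 i8).resolve_left hdz)
  · exact i5

open Classical in
theorem acc1_sum (a : Fin k → ℕ) (b : Fin k → ℤ) (p : Fin k × Fin k) (u s : ℤ) (hu : u % 2 = 1)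
    (M : ℤ) (L : ℕ) : ∑ x ∈ Ico M (M + L), acc1 d w a b t p (u * x + s) ≤ 2 ^ t := by
  have h5 : ∑ x ∈ Ico M (M + L), acc1 d w a b t p (u * x + s) =
      (((Ico M (M + L)).filter (fun x => Vv a b t (w * (u * x + s)) p.1 ≠ Vv a b t (w * (u * x + s)) p.2 ∧
        Vd d a b t (u * x + s) p.1 = Vd d a b t (u * x + s) p.2)).card : ℝ) := by
    rw [card_filter]
    push_cast
    apply sum_congr rfl
    intro x _
    unfold acc1
    split_ifs <;> rfl
  rw [h5]
  have hc : (Finset.Ico (0:ℤ) (2 ^ t)).card = 2 ^ t := by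
    rw [Int.card_Ico, sub_zero]
    have : (2:ℤ) ^ t = ((2 ^ t : ℕ) : ℤ) := by push_cast; rfl
    rw [this, Int.toNat_natCast]
  have h6 : ((Ico M (M + L)).filter (fun x => Vv a b t (w * (u * x + s)) p.1 ≠ Vv a b t (w * (u * x + s)) p.2 ∧
        Vd d a b t (u * x + s) p.1 = Vd d a b t (u * x + s) p.2)).card ≤ 2 ^ t := by
    rw [← hc]
    apply Finset.card_le_card_of_injOn (fun x => x % 2 ^ t)
    · intro x _
      simp only [Finset.coe_Ico, Set.mem_Ico]
      exact ⟨Int.emod_nonneg _ (by positivity), Int.emod_lt_of_pos _ (by positivity)⟩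
    · intro x hx y hy hxy
      simp only [Finset.coe_filter, Set.mem_ofPred_eq] at hx hy
      simp only at hxy
      have i1 : (2:ℤ) ^ t ∣ y - x := Int.ModEq.dvd hxy
      obtain ⟨j, hj⟩ := i1
      have i2 : y = x + 2 ^ t * j := by omega
      have e1 : u * y + s = (u * x + s) + 2 ^ t * (u * j) := by rw [i2]; ring
      have i3 := hy.2.2
      rw [e1] at i3
      have i4 := acc1_unique hd hw hx.2.1 hx.2.2 i3
      have hu0 : u ≠ 0 := by rintro rfl; omega
      have i5 : j = 0 := (mul_eq_zero.1 i4).resolve_left hu0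
      rw [i5] at i2
      omega
  exact_mod_cast h6

theorem pat_diff (a : Fin k → ℕ) (b : Fin k → ℤ) (π : Fin k → Fin k) (X : ℤ) :
    |pat π (Vd d a b t X) - pat π (Vv a b t (w * X))| ≤ ∑ p : Fin k × Fin k, acc1 d w a b t p X := by
  by_cases h : ∀ i j, Vd d a b t X i = Vd d a b t X j → Vv a b t (w * X) i = Vv a b t (w * X) j
  · rw [pat_congr π (v := Vd d a b t X) (w := Vv a b t (w * X))
      (fun i j => ⟨h i j, Vd_of_Vv hd hw⟩), sub_self, abs_zero]
    exact sum_nonneg fun p _ => acc1_nonneg d w a b t p X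
  · push Not at h
    obtain ⟨i, j, h1, h2⟩ := h
    have h3 : acc1 d w a b t (i, j) X = 1 := by
      unfold acc1
      rw [if_pos]
      exact ⟨h2, h1⟩
    have h4 : acc1 d w a b t (i, j) X ≤ ∑ p : Fin k × Fin k, acc1 d w a b t p X :=
      single_le_sum (fun p _ => acc1_nonneg d w a b t p X) (mem_univ (i, j))
    rw [h3] at h4
    refine le_trans ?_ h4
    have i1 := pat_nonneg π (Vd d a b t X)
    have i2 := pat_le_one π (Vd d a b t X)
    have i3 := pat_nonneg π (Vv a b t (w * X))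
    have i4 := pat_le_one π (Vv a b t (w * X))
    rw [abs_le]
    constructor <;> linarith

end

/-- JOB Conv -/
theorem conv : S_Conv := by
  intro k d hd u s hu M L t a b π G hG
  obtain ⟨w, κ, hw2, hw⟩ := exists_inv hd t
  have hlevel : ∀ X : ℤ, (fun i => (a i : ℤ) + ocd d t (Yd d a b i X)) = Lv a b t (w * X) := by
    intro X
    funext i
    unfold Lv
    rw [ocd_eq hd hw]
    have e : w * Yd d a b i X = yy a b i (w * X) + 2 ^ t * (-(κ * b i)) := by
      unfold Yd yy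
      linear_combination b i * hw
    rw [e, oc_per]
  simp only [hlevel]
  have hG1 : ∀ n : ℤ, |pat π (Vv a b t n) * G (Lv a b t n)| ≤ 1 := fun n => pat_mul π _ (hG _)
  have hper : Pe t (fun n => pat π (Vv a b t n) * G (Lv a b t n)) := by
    refine Pe_mul ?_ (Pe_Lv a b t G)
    intro n e
    exact pat_congr π (fun i j => Vv_per_iff a b t n e i j)
  have h5 := count_bd (h := fun n => pat π (Vv a b t n) * G (Lv a b t n)) hper hG1 (w * u) (w * s)
    (odd_mul hw2 hu) M L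
  have hwe : ∀ x : ℤ, w * u * x + w * s = w * (u * x + s) := fun x => by ring
  simp only [hwe] at h5
  have h4 : |∑ x ∈ Ico M (M + L), pat π (Vd d a b t (u * x + s)) * G (Lv a b t (w * (u * x + s))) -
      ∑ x ∈ Ico M (M + L), pat π (Vv a b t (w * (u * x + s))) * G (Lv a b t (w * (u * x + s)))| ≤
      (k : ℝ) ^ 2 * 2 ^ t := by
    rw [← sum_sub_distrib]
    have h3 : ∑ x ∈ Ico M (M + L), ∑ p : Fin k × Fin k, acc1 d w a b t p (u * x + s) ≤ (k : ℝ) ^ 2 * 2 ^ t := by
      rw [sum_comm]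
      refine (sum_le_card_nsmul _ _ ((2 : ℝ) ^ t) (fun p _ => acc1_sum hd hw a b p u s hu M L)).trans ?_
      rw [card_univ, Fintype.card_prod, Fintype.card_fin, nsmul_eq_mul]
      push_cast
      rw [sq]
    refine (abs_sum_le_sum_abs _ _).trans (le_trans ?_ h3)
    apply sum_le_sum
    intro x _
    refine le_trans ?_ (pat_diff hd hw a b π (u * x + s))
    rw [← sub_mul, abs_mul]
    have i1 := hG (Lv a b t (w * (u * x + s)))
    exact mul_le_of_le_one_right (abs_nonneg _) i1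
  have h6 := abs_add_le
    (∑ x ∈ Ico M (M + L), pat π (Vd d a b t (u * x + s)) * G (Lv a b t (w * (u * x + s))) -
      ∑ x ∈ Ico M (M + L), pat π (Vv a b t (w * (u * x + s))) * G (Lv a b t (w * (u * x + s))))
    (∑ x ∈ Ico M (M + L), pat π (Vv a b t (w * (u * x + s))) * G (Lv a b t (w * (u * x + s))) -
      EE t (fun n => pat π (Vv a b t n) * G (Lv a b t n)) * L)
  have e : (∑ x ∈ Ico M (M + L), pat π (Vd d a b t (u * x + s)) * G (Lv a b t (w * (u * x + s))) -
      ∑ x ∈ Ico M (M + L), pat π (Vv a b t (w * (u * x + s))) * G (Lv a b t (w * (u * x + s)))) +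
    (∑ x ∈ Ico M (M + L), pat π (Vv a b t (w * (u * x + s))) * G (Lv a b t (w * (u * x + s))) -
      EE t (fun n => pat π (Vv a b t n) * G (Lv a b t n)) * L) =
    ∑ x ∈ Ico M (M + L), pat π (Vd d a b t (u * x + s)) * G (Lv a b t (w * (u * x + s))) -
      EE t (fun n => pat π (Vv a b t n) * G (Lv a b t n)) * L := by
    ring
  rw [e] at h6
  refine h6.trans ?_
  have e2 : (2 + (k : ℝ) ^ 2) * 2 ^ t = (k : ℝ) ^ 2 * 2 ^ t + 2 * 2 ^ t := by ring
  rw [e2]
  exact add_le_add h4 h5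

end Pool.Agent.Q14.SF
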