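import Pool.Agent.Q74.SF.Def

/-! # Project SF: JOB Fix -/

set_option autoImplicit false

namespace Pool.Agent.Q14.SF

open Finset
open Pool.Agent.Q74.KP
open Pool.Agent.Q74.SF

variable {k : ℕ}

theorem Off_mono {ρ ρ' : ℝ} (h : ρ ≤ ρ') {t : ℕ} {a : Fin k → ℕ} {b : Fin k → ℤ} (hO : Off ρ t a b) :
    Off ρ' t a b := by
  have ht : (0 : ℝ) ≤ t := Nat.cast_nonneg _
  have h1 : ρ * t ≤ ρ' * t := mul_le_mul_of_nonneg_right h ht
  refine ⟨fun i j => (hO.1 i j).trans h1, fun i j hij => (hO.2 i j hij).trans ?_⟩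
  exact mul_le_mul_of_nonneg_left (Real.exp_le_exp.2 h1) (by positivity)

theorem Off_comp {ρ : ℝ} {t : ℕ} {a : Fin k → ℕ} {b : Fin k → ℤ} (hO : Off ρ t a b) {m : ℕ}
    (e : Fin m → Fin k) : Off ρ t (a ∘ e) (b ∘ e) :=
  ⟨fun i j => hO.1 (e i) (e j), fun i j hij => hO.2 (e i) (e j) hij⟩

theorem Good_self {z : Fin k → ℤ} (hz : Monotone z) : Good z z := by
  intro i j l h1 h2 h3
  have a1 := hz h1
  have a2 := hz h2
  have h4 : z l = z i := by omega
  exact ⟨h4, h4⟩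

open Classical in
theorem fix_mono (h1 : S_Expand) (h2 : S_Sep) (h3 : S_Cross) (h4 : S_Comp) (h5 : S_CInj) (h6 : S_CMono)
    (k : ℕ) (Λ ε : ℝ) (hΛ : 0 ≤ Λ) (hε : 0 < ε) : ∃ ρ : ℝ, 0 < ρ ∧ ∃ t₀ : ℕ, ∀ t : ℕ, t₀ ≤ t →
    ∀ (a : Fin k → ℕ) (b : Fin k → ℤ), Monotone a → Off ρ t a b →
    ∀ (π : Fin k → Fin k) (G : (Fin k → ℤ) → ℝ), (∀ z, |G z| ≤ 1) →
    (∀ z w : Fin k → ℤ, |G z - G w| ≤ Λ / √t * ∑ i, |(z i : ℝ) - w i|) →
    |EE t (fun n => pat π (Vv a b t n) * G (Lv a b t n)) -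
      CG (fun z => pat π z * G z) t (fun i => (a i : ℤ))| ≤ ε := by
  obtain ⟨N, C, hC, hE⟩ := h1 k
  obtain ⟨δ, hδ⟩ : ∃ δ : ℝ, δ = ε / (2 * ((N : ℝ) + 1)) := ⟨_, rfl⟩
  have hN0 : (0 : ℝ) ≤ N := Nat.cast_nonneg _
  have hδ0 : 0 < δ := by rw [hδ]; positivity
  have hNδ : ((N : ℝ) + 1) * δ = ε / 2 := by rw [hδ]; field_simp
  obtain ⟨ρ₁, hρ₁, t₁, hX⟩ := h3 k δ hδ0
  have h2' := fun m : ℕ => h2 m (C * Λ) δ (mul_nonneg hC hΛ) hδ0
  choose ρs hρs ts hS using h2'
  have hne : (range (k + 1)).Nonempty := ⟨0, by simp⟩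
  obtain ⟨m₀, hm₀, hmin⟩ := exists_min_image (range (k + 1)) ρs hne
  refine ⟨min ρ₁ (ρs m₀), lt_min hρ₁ (hρs m₀), t₁ + ∑ m ∈ range (k + 1), ts m, fun t ht a b ha hO π G hG hGL => ?_⟩
  obtain ⟨m, e, g, he, hg, hgL, hexp⟩ := hE π G hG
  have hmk : ∀ x, m x ≤ k := fun x => by
    have := Fintype.card_le_of_injective (e x) (he x).injective
    simpa using this
  have hmr : ∀ x, m x ∈ range (k + 1) := fun x => mem_range.2 (Nat.lt_succ_of_le (hmk x))
  have htm : ∀ x, ts (m x) ≤ t := fun x => by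
    have := single_le_sum (f := ts) (fun _ _ => Nat.zero_le _) (hmr x)
    omega
  have hX1 := hX t (by omega) a b ha (Off_mono (min_le_left _ _) hO)
  have hS1 : ∀ x, |EE t (fun n => if Function.Injective (Vv a b t n ∘ e x) then g x (Lv a b t n ∘ e x) else 0) -
      NG (g x) t (fun i => ((a (e x i) : ℕ) : ℤ))| ≤ δ := by
    intro x
    have i1 := hS (m x) t (htm x) (a ∘ e x) (b ∘ e x)
      (Off_comp (Off_mono ((min_le_right _ _).trans (hmin _ (hmr x))) hO) (e x)) (g x) (hg x) (fun z w => by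
        have := hgL (Λ / √t) (by positivity) hGL x z w
        refine this.trans (le_of_eq ?_)
        ring)
    refine le_trans (le_of_eq ?_) i1
    congr 2
  have hCG : CG (fun z => pat π z * G z) t (fun i => (a i : ℤ)) =
      ∑ x, NG (g x) t (fun i => ((a (e x i) : ℕ) : ℤ)) := by
    rw [h6 k (fun z => pat π z * G z)
      (fun z => ∑ x, if Function.Injective (z ∘ e x) then g x (z ∘ e x) else 0)
      (fun z hz => by
        have i1 := hexp ℤ z z (Good_self hz)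
        rw [i1]
        apply sum_congr rfl
        intro x _
        by_cases hi : Function.Injective (z ∘ e x)
        · rw [if_pos hi, if_pos hi]
        · rw [if_neg hi, if_neg hi]) t _ (fun i j hij => by
          have := ha hij
          exact_mod_cast this)]
    rw [CG_sum]
    apply sum_congr rfl
    intro x _
    have i1 := h4 k (m x) (e x) (fun y => if Function.Injective y then g x y else 0) t (fun i => (a i : ℤ))
    have i2 := h5 (m x) (g x) t ((fun i => (a i : ℤ)) ∘ e x)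
    refine Eq.trans ?_ (i1.trans (Eq.trans ?_ i2))
    · congr 1
    · congr 1
  have hA : |EE t (fun n => pat π (Vv a b t n) * G (Lv a b t n)) -
      EE t (fun n => ∑ x : Fin N, if Function.Injective (Vv a b t n ∘ e x) then g x (Lv a b t n ∘ e x) else 0)| ≤
      ε / 2 := by
    rw [← EE_sub]
    refine (EE_abs_le t (G := fun n => ((N : ℝ) + 1) *
      (if Good (Vv a b t n) (Lv a b t n) then (0 : ℝ) else 1)) ?_).trans ?_
    · intro n
      by_cases hgd : Good (Vv a b t n) (Lv a b t n)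
      · have i1 := hexp (ℤ × ℤ) (Vv a b t n) (Lv a b t n) hgd
        rw [i1, if_pos hgd, mul_zero]
        refine le_of_eq ?_
        rw [abs_eq_zero, sub_eq_zero]
        apply sum_congr rfl
        intro x _
        by_cases hi : Function.Injective (Vv a b t n ∘ e x)
        · rw [if_pos hi, if_pos hi]
        · rw [if_neg hi, if_neg hi]
      · rw [if_neg hgd, mul_one]
        have i1 : |pat π (Vv a b t n) * G (Lv a b t n)| ≤ 1 := pat_mul π _ (hG _)
        have i2 : |∑ x : Fin N, (if Function.Injective (Vv a b t n ∘ e x) then g x (Lv a b t n ∘ e x) else 0)| ≤ N := by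
          refine (abs_sum_le_sum_abs _ _).trans ?_
          refine (sum_le_card_nsmul univ _ (1 : ℝ) ?_).trans (by simp)
          intro x _
          by_cases hi : Function.Injective (Vv a b t n ∘ e x)
          · rw [if_pos hi]; exact hg x _
          · rw [if_neg hi, abs_zero]; exact zero_le_one
        have i3 := abs_sub (pat π (Vv a b t n) * G (Lv a b t n))
          (∑ x : Fin N, (if Function.Injective (Vv a b t n ∘ e x) then g x (Lv a b t n ∘ e x) else 0))
        linarith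
    · rw [EE_mul, ← hNδ]
      exact mul_le_mul_of_nonneg_left hX1 (by positivity)
  have hB : |EE t (fun n => ∑ x : Fin N, if Function.Injective (Vv a b t n ∘ e x) then g x (Lv a b t n ∘ e x) else 0) -
      CG (fun z => pat π z * G z) t (fun i => (a i : ℤ))| ≤ N * δ := by
    rw [hCG, EE_sum, ← sum_sub_distrib]
    refine (abs_sum_le_sum_abs _ _).trans ?_
    refine (sum_le_card_nsmul univ _ δ (fun x _ => hS1 x)).trans ?_
    rw [card_univ, Fintype.card_fin, nsmul_eq_mul]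
  have hC1 := abs_add_le (EE t (fun n => pat π (Vv a b t n) * G (Lv a b t n)) -
      EE t (fun n => ∑ x : Fin N, if Function.Injective (Vv a b t n ∘ e x) then g x (Lv a b t n ∘ e x) else 0))
    (EE t (fun n => ∑ x : Fin N, if Function.Injective (Vv a b t n ∘ e x) then g x (Lv a b t n ∘ e x) else 0) -
      CG (fun z => pat π z * G z) t (fun i => (a i : ℤ)))
  rw [sub_add_sub_cancel] at hC1
  have hD : N * δ ≤ ε / 2 := by
    rw [← hNδ]
    have := hδ0.le
    nlinarith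
  linarith

theorem pat_perm {α : Type} (σ : Equiv.Perm (Fin k)) (π : Fin k → Fin k) (v : Fin k → α) :
    pat (π ∘ σ) (v ∘ σ) = pat π v := by
  have h2 : (∀ i j, (v ∘ σ) i = (v ∘ σ) j ↔ (π ∘ σ) i = (π ∘ σ) j) ↔ (∀ i j, v i = v j ↔ π i = π j) := by
    constructor
    · intro h i j
      have := h (σ.symm i) (σ.symm j)
      simpa using this
    · intro h i j
      exact h (σ i) (σ j)
  unfold pat
  by_cases c : ∀ i j, v i = v j ↔ π i = π j
  · rw [if_pos c, if_pos (h2.2 c)]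
  · rw [if_neg c, if_neg (fun h3 => c (h2.1 h3))]

/-- JOB Fix -/
theorem fix (h1 : S_Expand) (h2 : S_Sep) (h3 : S_Cross) (h4 : S_Comp) (h5 : S_CInj) (h6 : S_CMono) : S_Fix := by
  intro k Λ ε hΛ hε
  obtain ⟨ρ, hρ, t₀, h⟩ := fix_mono h1 h2 h3 h4 h5 h6 k Λ ε hΛ hε
  refine ⟨ρ, hρ, t₀, fun t ht a b hO π G hG hGL => ?_⟩
  obtain ⟨σ, hσ⟩ : ∃ σ, σ = Tuple.sort a := ⟨_, rfl⟩
  have hmono : Monotone (a ∘ σ) := by rw [hσ]; exact Tuple.monotone_sort a
  have h7 := h t ht (a ∘ σ) (b ∘ σ) hmono (Off_comp hO σ) (π ∘ σ) (fun z => G (z ∘ σ.symm)) (fun z => hG _)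
    (fun z w => by
      refine (hGL (z ∘ σ.symm) (w ∘ σ.symm)).trans (le_of_eq ?_)
      congr 1
      exact Equiv.sum_comp σ.symm (fun i => |(z i : ℝ) - w i|))
  have h8 : ∀ z : Fin k → ℤ, (z ∘ σ) ∘ σ.symm = z := by
    intro z
    funext i
    simp
  have e1 : ∀ n : ℤ, Vv (a ∘ σ) (b ∘ σ) t n = Vv a b t n ∘ σ := fun n => rfl
  have e2 : ∀ n : ℤ, Lv (a ∘ σ) (b ∘ σ) t n = Lv a b t n ∘ σ := fun n => rfl
  simp only [e1, e2, h8, pat_perm] at h7
  have h9 := h4 k k σ (fun z => pat (π ∘ σ) z * G (z ∘ σ.symm)) t (fun i => (a i : ℤ))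
  simp only [h8, pat_perm] at h9
  have e3 : (fun i => (((a ∘ σ) i : ℕ) : ℤ)) = (fun i => (a i : ℤ)) ∘ σ := rfl
  rw [e3, ← h9] at h7
  exact h7

end Pool.Agent.Q14.SF
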