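import Mathlib
import Pool.Agent.Q90.SF.Stm

/-!
# Job SFM: star-shaped domains with the radial function `a + t b` (helper14)
-/

set_option autoImplicit false

open MeasureTheory Metric Set
open scoped Real

namespace Q14.SF

open Q90.SF

lemma scl_star {ρ : ℝ} (hρ : 0 < ρ) (R : ℝ → ℝ) :
    scl ρ (starDom R) = starDom fun θ => ρ * R θ := by
  ext x
  simp only [scl, starDom, mem_ofPred_eq, norm_smul, Real.norm_eq_abs]
  rw [Complex.real_smul, Complex.arg_real_mul x (inv_pos.2 hρ), abs_of_pos (inv_pos.2 hρ),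
    inv_mul_lt_iff₀ hρ]

lemma bdd_pi (a : ℝ → ℝ) (ha : Continuous a) :
    ∃ M : ℝ, 0 ≤ M ∧ ∀ θ ∈ Icc (-π) π, |a θ| ≤ M := by
  obtain ⟨M, hM⟩ := (isCompact_Icc (a := -π) (b := π)).bddAbove_image ha.abs.continuousOn
  exact ⟨max M 0, le_max_right _ _, fun θ hθ => (hM (mem_image_of_mem _ hθ)).trans (le_max_left _ _)⟩

theorem sfm : S_sfm := by
  intro hpol a b J ha hb _ _ _ hpos
  obtain ⟨p1, -, p3, p4⟩ := hpol
  have hc : ∀ t : ℝ, Continuous fun θ => a θ + t * b θ := fun t => by fun_prop
  obtain ⟨A, hA0, hA⟩ := bdd_pi a ha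
  obtain ⟨B, hB0, hB⟩ := bdd_pi b hb
  refine ⟨fun t _ => p1 _ (hc t), fun t ht => ?_, fun t ht => ?_⟩
  · rw [p3 _ (hc t) (fun θ => (hpos t ht θ).le)]
    refine intervalIntegral.intervalIntegral_pos_of_pos ?_ (fun θ => ?_) (by linarith [Real.pi_pos])
    · exact (((hc t).pow 2).div_const 2).intervalIntegrable _ _
    · have := hpos t ht θ
      positivity
  · set M : ℝ := A + (|t| + 1) * B with hM
    have hM0 : 0 ≤ M := by positivity
    have hBM : B ≤ M := by
      have : 0 ≤ |t| * B := by positivity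
      rw [hM]; linarith
    refine ⟨10 * M ^ 2 + 2 * M + 1, 1 / 2, by norm_num, fun t' ht' h1 ρ h2 => ?_⟩
    have hρ1 := abs_lt.1 h2
    have hρ : 0 < ρ := by linarith [hρ1.1]
    have hρ2 : ρ ≤ 3 / 2 := by linarith [hρ1.2]
    have hb1 : ∀ s : ℝ, |s| ≤ |t| + 1 → ∀ θ ∈ Icc (-π) π, |a θ + s * b θ| ≤ M := by
      intro s hs θ hθ
      calc |a θ + s * b θ| ≤ |a θ| + |s * b θ| := abs_add_le _ _
        _ = |a θ| + |s| * |b θ| := by rw [abs_mul]
        _ ≤ A + (|t| + 1) * B := by
          have h3 := hA θ hθ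
          have h4 := hB θ hθ
          have h5 : |s| * |b θ| ≤ (|t| + 1) * B := mul_le_mul hs h4 (abs_nonneg _) (by positivity)
          linarith
    have ht1 : |t'| ≤ |t| + 1 := by
      have h3 : |t'| ≤ |t' - t| + |t| := by
        have := abs_add_le (t' - t) t
        rwa [sub_add_cancel] at this
      linarith
    have ht2 : |t| ≤ |t| + 1 := by linarith
    constructor
    · show scl ρ (starDom fun θ => a θ + t' * b θ) ⊆ _
      rw [scl_star hρ]
      intro z hz
      have hz' : ‖z‖ < ρ * (a z.arg + t' * b z.arg) := hz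
      rw [mem_ball_zero_iff]
      have h3 := hb1 t' ht1 z.arg ⟨(Complex.neg_pi_lt_arg z).le, Complex.arg_le_pi z⟩
      have h4 := le_abs_self (a z.arg + t' * b z.arg)
      have h5 : ρ * (a z.arg + t' * b z.arg) ≤ 3 / 2 * M :=
        mul_le_mul hρ2 (h4.trans h3) (hpos t' ht' _).le (by norm_num)
      have h6 : 0 ≤ M ^ 2 := by positivity
      linarith
    · show volume.real (symmDiff (scl ρ (starDom fun θ => a θ + t' * b θ))
        (starDom fun θ => a θ + t * b θ)) ≤ _
      rw [scl_star hρ, p4 _ _ ((hc t').const_mul ρ |>.congr fun θ => rfl) (hc t)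
        (fun θ => mul_nonneg hρ.le (hpos t' ht' θ).le) (fun θ => (hpos t ht θ).le)]
      set e : ℝ := |t' - t| + |ρ - 1| with he
      have he0 : 0 ≤ e := by positivity
      have key : ∀ θ ∈ Icc (-π) π,
          |(ρ * (a θ + t' * b θ)) ^ 2 - (a θ + t * b θ) ^ 2| / 2 ≤ 3 / 2 * M ^ 2 * e := by
        intro θ hθ
        have e1 : (ρ * (a θ + t' * b θ)) ^ 2 - (a θ + t * b θ) ^ 2 =
            ((ρ - 1) * (a θ + t' * b θ) + (t' - t) * b θ) *
              (ρ * (a θ + t' * b θ) + (a θ + t * b θ)) := by ring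
        have q1 := hb1 t' ht1 θ hθ
        have q2 := hb1 t ht2 θ hθ
        have q3 := hB θ hθ
        have r1 : |(ρ - 1) * (a θ + t' * b θ) + (t' - t) * b θ| ≤ M * e := by
          calc |(ρ - 1) * (a θ + t' * b θ) + (t' - t) * b θ|
              ≤ |(ρ - 1) * (a θ + t' * b θ)| + |(t' - t) * b θ| := abs_add_le _ _
            _ = |ρ - 1| * |a θ + t' * b θ| + |t' - t| * |b θ| := by rw [abs_mul, abs_mul]
            _ ≤ |ρ - 1| * M + |t' - t| * M := by
              have := mul_le_mul_of_nonneg_left q1 (abs_nonneg (ρ - 1))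
              have := mul_le_mul_of_nonneg_left (q3.trans hBM) (abs_nonneg (t' - t))
              linarith
            _ = M * e := by rw [he]; ring
        have r2 : |ρ * (a θ + t' * b θ) + (a θ + t * b θ)| ≤ 3 * M := by
          calc |ρ * (a θ + t' * b θ) + (a θ + t * b θ)|
              ≤ |ρ * (a θ + t' * b θ)| + |a θ + t * b θ| := abs_add_le _ _
            _ = ρ * |a θ + t' * b θ| + |a θ + t * b θ| := by rw [abs_mul, abs_of_pos hρ]
            _ ≤ 3 / 2 * M + M := by
              have := mul_le_mul hρ2 q1 (abs_nonneg _) (by norm_num)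
              linarith
            _ ≤ 3 * M := by linarith
        rw [e1, abs_mul]
        have := mul_le_mul r1 r2 (abs_nonneg _) (by positivity)
        nlinarith
      have hint := intervalIntegral.norm_integral_le_of_norm_le_const (a := -π) (b := π)
        (f := fun θ => |(ρ * (a θ + t' * b θ)) ^ 2 - (a θ + t * b θ) ^ 2| / 2)
        (C := 3 / 2 * M ^ 2 * e) (fun θ hθ => by
          rw [uIoc_of_le (by linarith [Real.pi_pos])] at hθ
          rw [Real.norm_of_nonneg (by positivity)]
          exact key θ ⟨hθ.1.le, hθ.2⟩)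
      have h7 : |π - -π| = 2 * π := by
        rw [abs_of_nonneg (by linarith [Real.pi_pos])]; ring
      rw [h7] at hint
      refine (le_abs_self _).trans (hint.trans ?_)
      have h8 : π ≤ 3.15 := Real.pi_lt_d2.le
      have h9 : 0 ≤ M ^ 2 * e := by positivity
      have h10 : 0 ≤ (2 * M + 1) * e := by positivity
      nlinarith

end Q14.SF
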