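import Mathlib
import Pool.Agent.Q14.SF.Sfm

/-!
# Job SPR: the Fourier transforms of the star-shaped domains with the radial function `a + t b`
(helper14)
-/

set_option autoImplicit false

open MeasureTheory Metric Set
open scoped Real

namespace Q14.SF

open Q90.SF

/-- the rectangle -/
def SS : Set (ℝ × ℝ) := Ioo 0 1 ×ˢ Ioo (-π) π

lemma meas_SS : MeasurableSet SS := measurableSet_Ioo.prod measurableSet_Ioo

/-- the Fourier transform of a star-shaped domain -/
lemma ft_star (hpol : S_pol) (R : ℝ → ℝ) (hR : Continuous R) (h0 : ∀ θ, 0 ≤ R θ) (ξ : ℂ) :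
    ft (starDom R) ξ = ∫ y in SS,
      Complex.exp (((inner ℝ ξ ((y.1 * R y.2 : ℝ) * Complex.exp (y.2 * Complex.I)) : ℝ) : ℂ) *
        Complex.I) * ((y.1 * R y.2 ^ 2 : ℝ) : ℂ) := by
  obtain ⟨-, p2, -, -⟩ := hpol
  unfold ft
  rw [p2 R hR h0 (fun x => Complex.exp (((inner ℝ ξ x : ℝ) : ℂ) * Complex.I)) (by fun_prop)]
  have hF : Continuous fun y : ℝ × ℝ =>
      Complex.exp (((inner ℝ ξ ((y.1 * R y.2 : ℝ) * Complex.exp (y.2 * Complex.I)) : ℝ) : ℂ) *
        Complex.I) * ((y.1 * R y.2 ^ 2 : ℝ) : ℂ) := by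
    fun_prop
  set F : ℝ × ℝ → ℂ := fun y =>
      Complex.exp (((inner ℝ ξ ((y.1 * R y.2 : ℝ) * Complex.exp (y.2 * Complex.I)) : ℝ) : ℂ) *
        Complex.I) * ((y.1 * R y.2 ^ 2 : ℝ) : ℂ) with hFdef
  have hint : IntegrableOn F SS := by
    have h1 : IntegrableOn F (Icc 0 1 ×ˢ Icc (-π) π) :=
      hF.continuousOn.integrableOn_compact (isCompact_Icc.prod isCompact_Icc)
    exact h1.mono_set (prod_mono Ioo_subset_Icc_self Ioo_subset_Icc_self)
  have h2 : ∫ y in SS, F y = ∫ θ in Ioo (-π) π, ∫ u in Ioo (0 : ℝ) 1, F (u, θ) := by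
    have h3 : (volume : Measure (ℝ × ℝ)).restrict SS =
        ((volume : Measure ℝ).restrict (Ioo 0 1)).prod
          ((volume : Measure ℝ).restrict (Ioo (-π) π)) := by
      rw [Measure.prod_restrict]; rfl
    rw [h3]
    refine integral_prod_symm F ?_
    rw [← h3]
    exact hint
  rw [h2, intervalIntegral.integral_of_le (by linarith [Real.pi_pos]), integral_Ioc_eq_integral_Ioo]
  refine setIntegral_congr_fun measurableSet_Ioo fun θ _ => ?_
  have h4 := intervalIntegral.smul_integral_comp_mul_left (a := 0) (b := 1)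
    (fun r : ℝ => (r : ℂ) * Complex.exp (((inner ℝ ξ ((r : ℂ) * Complex.exp (θ * Complex.I)) : ℝ) :
      ℂ) * Complex.I)) (R θ)
  rw [mul_zero, mul_one] at h4
  rw [← h4, intervalIntegral.integral_of_le (by norm_num), integral_Ioc_eq_integral_Ioo,
    ← integral_smul]
  refine setIntegral_congr_fun measurableSet_Ioo fun u _ => ?_
  simp only [hFdef]
  rw [Complex.real_smul, mul_comm u (R θ)]
  push_cast
  ring

theorem spr : S_spr := by
  intro hpol a b J ha hb _ _ hpos
  obtain ⟨A, hA0, hA⟩ := bdd_pi a ha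
  obtain ⟨B, hB0, hB⟩ := bdd_pi b hb
  have hca : Continuous fun y : ℝ × ℝ => ((y.1 * a y.2 : ℝ) : ℂ) * Complex.exp (y.2 * Complex.I) := by
    fun_prop
  have hcb : Continuous fun y : ℝ × ℝ => ((y.1 * b y.2 : ℝ) : ℂ) * Complex.exp (y.2 * Complex.I) := by
    fun_prop
  have hc0 : Continuous fun y : ℝ × ℝ => y.1 * a y.2 ^ 2 := by fun_prop
  have hc1 : Continuous fun y : ℝ × ℝ => 2 * y.1 * a y.2 * b y.2 := by fun_prop
  have hc2 : Continuous fun y : ℝ × ℝ => y.1 * b y.2 ^ 2 := by fun_prop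
  refine ⟨SS.indicator fun y => ((y.1 * a y.2 : ℝ) : ℂ) * Complex.exp (y.2 * Complex.I),
    SS.indicator fun y => ((y.1 * b y.2 : ℝ) : ℂ) * Complex.exp (y.2 * Complex.I),
    SS.indicator fun y => y.1 * a y.2 ^ 2, SS.indicator fun y => 2 * y.1 * a y.2 * b y.2,
    SS.indicator fun y => y.1 * b y.2 ^ 2, hca.measurable.indicator meas_SS,
    hcb.measurable.indicator meas_SS, hc0.measurable.indicator meas_SS,
    hc1.measurable.indicator meas_SS, hc2.measurable.indicator meas_SS, ?_, ?_⟩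
  · set M : ℝ := A + B + A ^ 2 + 2 * A * B + B ^ 2 with hM
    have hM0 : 0 ≤ M := by positivity
    refine ⟨M, fun y => ?_⟩
    by_cases hy : y ∈ SS
    · simp only [indicator_of_mem hy]
      have hu0 : 0 < y.1 := hy.1.1
      have hu1 : y.1 ≤ 1 := hy.1.2.le
      have q1 := hA y.2 ⟨hy.2.1.le, hy.2.2.le⟩
      have q2 := hB y.2 ⟨hy.2.1.le, hy.2.2.le⟩
      have z1 : 0 ≤ A ^ 2 := by positivity
      have z2 : 0 ≤ A * B := by positivity
      have z3 : 0 ≤ B ^ 2 := by positivity
      have g : ∀ x N : ℝ, 0 ≤ N → |x| ≤ N → |y.1 * x| ≤ N := by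
        intro x N hN hx
        rw [abs_mul, abs_of_pos hu0]
        calc y.1 * |x| ≤ 1 * N := mul_le_mul hu1 hx (abs_nonneg _) (by norm_num)
          _ = N := one_mul _
      refine ⟨?_, ?_, ?_, ?_, ?_⟩
      · rw [norm_mul, Complex.norm_exp_ofReal_mul_I, mul_one, Complex.norm_real, Real.norm_eq_abs]
        have := g _ _ hA0 q1
        rw [hM]; linarith
      · rw [norm_mul, Complex.norm_exp_ofReal_mul_I, mul_one, Complex.norm_real, Real.norm_eq_abs]
        have := g _ _ hB0 q2
        rw [hM]; linarith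
      · have := g (a y.2 ^ 2) (A ^ 2) z1 (by
          rw [abs_pow]; exact pow_le_pow_left₀ (abs_nonneg _) q1 2)
        rw [hM]; linarith
      · have := g (2 * (a y.2 * b y.2)) (2 * (A * B)) (by positivity) (by
          rw [abs_mul, abs_mul, abs_two]
          have := mul_le_mul q1 q2 (abs_nonneg _) hA0
          linarith)
        have e : 2 * y.1 * a y.2 * b y.2 = y.1 * (2 * (a y.2 * b y.2)) := by ring
        rw [e, hM]; linarith
      · have := g (b y.2 ^ 2) (B ^ 2) z3 (by
          rw [abs_pow]; exact pow_le_pow_left₀ (abs_nonneg _) q2 2)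
        rw [hM]; linarith
    · simp only [indicator_of_notMem hy]
      simp [hM0]
  · intro t ht ξ
    show ft (starDom fun θ => a θ + t * b θ) ξ = _
    rw [ft_star hpol _ (by fun_prop) (fun θ => (hpos t ht θ).le)]
    refine setIntegral_congr_fun meas_SS fun y hy => ?_
    simp only [indicator_of_mem hy]
    congr 4
    · congr 1
      rw [Complex.real_smul]
      push_cast
      ring
    · ring

end Q14.SF
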