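import Mathlib
import Pool.Agent.Q14.SF.Spr

/-!
# Job CLS, part 1: estimates (helper14)
-/

set_option autoImplicit false

open MeasureTheory Metric Set Filter Topology
open scoped Real FourierTransform ENNReal

namespace Q14.SF

open Q90.SF

lemma norm_exp_sub (a b : ℝ) :
    ‖Complex.exp ((a : ℂ) * Complex.I) - Complex.exp ((b : ℂ) * Complex.I)‖ ≤ |a - b| := by
  have h1 : Complex.exp ((a : ℂ) * Complex.I) - Complex.exp ((b : ℂ) * Complex.I) =
      Complex.exp ((b : ℂ) * Complex.I) * (Complex.exp (Complex.I * ((a - b : ℝ) : ℂ)) - 1) := by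
    rw [mul_sub, ← Complex.exp_add, mul_one]
    congr 2
    push_cast
    ring
  rw [h1, norm_mul, Complex.norm_exp_ofReal_mul_I, one_mul]
  exact Real.norm_exp_I_mul_ofReal_sub_one_le

lemma integrableOn_e {D : Set ℂ} {ρ : ℝ} (hρ : D ⊆ ball 0 ρ) (ξ : ℂ) :
    IntegrableOn (fun x : ℂ => Complex.exp (((inner ℝ ξ x : ℝ) : ℂ) * Complex.I)) D := by
  have h1 : Continuous (fun x : ℂ => Complex.exp (((inner ℝ ξ x : ℝ) : ℂ) * Complex.I)) := by
    fun_prop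
  have h2 := h1.continuousOn.integrableOn_compact (μ := volume) (isCompact_closedBall (0 : ℂ) ρ)
  exact h2.mono_set (hρ.trans ball_subset_closedBall)

lemma fin_of_ball {D : Set ℂ} {ρ : ℝ} (hρ : D ⊆ ball 0 ρ) : volume D < ⊤ :=
  lt_of_le_of_lt (measure_mono hρ) measure_ball_lt_top

/-- the Fourier transform of a bounded domain is Lipschitz -/
lemma ft_lip {D : Set ℂ} {ρ : ℝ} (hρ : D ⊆ ball 0 ρ) (ξ ξ' : ℂ) :
    ‖ft D ξ - ft D ξ'‖ ≤ ρ * volume.real D * ‖ξ - ξ'‖ := by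
  unfold ft
  rw [← integral_sub (integrableOn_e hρ ξ) (integrableOn_e hρ ξ')]
  have h := norm_setIntegral_le_of_norm_le_const (μ := volume) (s := D) (C := ρ * ‖ξ - ξ'‖)
    (f := fun x : ℂ => Complex.exp (((inner ℝ ξ x : ℝ) : ℂ) * Complex.I) -
      Complex.exp (((inner ℝ ξ' x : ℝ) : ℂ) * Complex.I)) (fin_of_ball hρ) (fun x hx => by
      refine (norm_exp_sub _ _).trans ?_
      rw [← inner_sub_left]
      refine (abs_real_inner_le_norm _ _).trans ?_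
      have hx' := mem_ball_zero_iff.1 (hρ hx)
      rw [mul_comm]
      exact mul_le_mul_of_nonneg_right hx'.le (norm_nonneg _))
  refine h.trans (le_of_eq ?_)
  ring

lemma ft_norm_le {D : Set ℂ} {ρ : ℝ} (hρ : D ⊆ ball 0 ρ) (ξ : ℂ) : ‖ft D ξ‖ ≤ volume.real D := by
  unfold ft
  have h := norm_setIntegral_le_of_norm_le_const (μ := volume) (s := D) (C := 1)
    (f := fun x : ℂ => Complex.exp (((inner ℝ ξ x : ℝ) : ℂ) * Complex.I)) (fin_of_ball hρ)
    (fun x _ => by rw [Complex.norm_exp_ofReal_mul_I])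
  rwa [one_mul] at h

lemma ft_cont {D : Set ℂ} {ρ : ℝ} (hρ : D ⊆ ball 0 ρ) :
    Continuous (ft D) := by
  have : LipschitzWith (Real.toNNReal (ρ * volume.real D)) (ft D) := by
    refine LipschitzWith.of_dist_le_mul fun x y => ?_
    rw [dist_eq_norm, dist_eq_norm]
    refine (ft_lip hρ x y).trans ?_
    exact mul_le_mul_of_nonneg_right (Real.le_coe_toNNReal _) (norm_nonneg _)
  exact this.continuous

/-- the Fourier transforms of two domains differ by at most the area of their symmetric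
difference -/
lemma ft_sub_le {D D' : Set ℂ} (hD : MeasurableSet D) (hD' : MeasurableSet D') {ρ : ℝ}
    (hρ : D ⊆ ball 0 ρ) (hρ' : D' ⊆ ball 0 ρ) (ξ : ℂ) :
    ‖ft D ξ - ft D' ξ‖ ≤ volume.real (symmDiff D D') := by
  unfold ft
  have e1 := integral_inter_add_sdiff (μ := volume) hD' (integrableOn_e hρ ξ)
  have e2 := integral_inter_add_sdiff (μ := volume) hD (integrableOn_e hρ' ξ)
  rw [← e1, ← e2, inter_comm D' D, add_sub_add_left_eq_sub]
  have b : ∀ S : Set ℂ, S ⊆ ball 0 ρ →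
      ‖∫ x in S, Complex.exp (((inner ℝ ξ x : ℝ) : ℂ) * Complex.I)‖ ≤ volume.real S := by
    intro S hS
    exact ft_norm_le hS ξ
  refine (norm_sub_le _ _).trans ?_
  have h3 : volume.real (symmDiff D D') = volume.real (D \ D') + volume.real (D' \ D) := by
    have hd : Disjoint (D \ D') (D' \ D) := by
      rw [Set.disjoint_left]
      intro x hx hx'
      exact hx.2 hx'.1
    have hu : symmDiff D D' = (D \ D') ∪ (D' \ D) := rfl
    rw [hu, measureReal_union hd (hD'.diff hD) (fin_of_ball (sdiff_subset.trans hρ)).ne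
      (fin_of_ball (sdiff_subset.trans hρ')).ne]
  rw [h3]
  exact add_le_add (b _ (sdiff_subset.trans hρ)) (b _ (sdiff_subset.trans hρ'))

/-- the transform of the potential -/
noncomputable def fi (U : ℂ → ℝ) (ξ : ℂ) : ℂ :=
  ∫ x, Complex.exp (((inner ℝ ξ x : ℝ) : ℂ) * Complex.I) * (U x : ℂ)

lemma fourier_fi (U : ℂ → ℝ) (w : ℂ) : 𝓕 (fun x => (U x : ℂ)) w = fi U (-(2 * π) • w) := by
  rw [Real.fourier_eq', fi]
  refine integral_congr_ae (Eventually.of_forall fun x => ?_)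
  simp only [smul_eq_mul]
  congr 3
  rw [real_inner_smul_left, real_inner_comm]
  push_cast
  ring

lemma ft_zero_of_pot {D : Set ℂ} {lam : ℝ} {U : ℂ → ℝ} (hU : Pot D lam U) {ξ : ℂ}
    (hξ : ‖ξ‖ ^ 2 = lam) : ft D ξ = 0 := by
  rw [← hU.eq ξ, hξ]
  simp

/-- distance to the zero circle -/
lemma ft_le_dist {D : Set ℂ} {ρ : ℝ} (hρ : D ⊆ ball 0 ρ)
    {lam : ℝ} (hlam : 0 < lam) {U : ℂ → ℝ} (hU : Pot D lam U) (ξ : ℂ) :
    ‖ft D ξ‖ ≤ ρ * volume.real D * |‖ξ‖ - √lam| := by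
  obtain ⟨ξ', h1, h2⟩ : ∃ ξ' : ℂ, ‖ξ'‖ = √lam ∧ ‖ξ - ξ'‖ = |‖ξ‖ - √lam| := by
    by_cases h : ξ = 0
    · refine ⟨((√lam : ℝ) : ℂ), ?_, ?_⟩
      · rw [Complex.norm_real, Real.norm_of_nonneg (Real.sqrt_nonneg _)]
      · rw [h, zero_sub, norm_neg, Complex.norm_real, norm_zero, zero_sub, abs_neg,
          Real.norm_eq_abs]
    · have hn : 0 < ‖ξ‖ := norm_pos_iff.2 h
      refine ⟨(√lam / ‖ξ‖) • ξ, ?_, ?_⟩
      · rw [norm_smul, Real.norm_of_nonneg (by positivity)]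
        field_simp
      · have h3 : ξ - (√lam / ‖ξ‖) • ξ = (1 - √lam / ‖ξ‖) • ξ := by
          rw [sub_smul, one_smul]
        rw [h3, norm_smul, Real.norm_eq_abs]
        have h4 : |‖ξ‖ - √lam| = |(1 - √lam / ‖ξ‖) * ‖ξ‖| := by
          congr 1
          field_simp
        rw [h4, abs_mul, abs_of_pos hn]
  have h3 : ft D ξ' = 0 := ft_zero_of_pot hU (by rw [h1, Real.sq_sqrt hlam.le])
  have h4 := ft_lip hρ ξ ξ'
  rw [h3, sub_zero, h2] at h4
  exact h4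

lemma fi_bound {D : Set ℂ} {ρ A l0 l1 : ℝ} (hρ0 : 0 ≤ ρ)
    (hρ : D ⊆ ball 0 ρ) (hA : volume.real D ≤ A) {lam : ℝ} (hl0 : 0 < l0) (h1 : l0 ≤ lam)
    (h2 : lam ≤ l1) {U : ℂ → ℝ} (hU : Pot D lam U) (ξ : ℂ) (hξ : ‖ξ‖ ^ 2 ≠ lam) :
    ‖fi U ξ‖ ≤ (ρ * A / √l0 * (1 + 2 * l1) + 2 * A * (1 + 1 / (2 * l1))) / (1 + ‖ξ‖ ^ 2) := by
  have hlam : 0 < lam := hl0.trans_le h1
  have hl1 : 0 < l1 := hlam.trans_le h2
  have hA0 : 0 ≤ A := measureReal_nonneg.trans hA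
  have heq : ((lam - ‖ξ‖ ^ 2 : ℝ) : ℂ) * fi U ξ = ft D ξ := hU.eq ξ
  have hn : |lam - ‖ξ‖ ^ 2| * ‖fi U ξ‖ = ‖ft D ξ‖ := by
    rw [← heq, norm_mul, Complex.norm_real, Real.norm_eq_abs]
  have hs0 : 0 < √l0 := Real.sqrt_pos.2 hl0
  have hs : 0 < √lam := Real.sqrt_pos.2 hlam
  have hs1 : √l0 ≤ √lam := Real.sqrt_le_sqrt h1
  rw [le_div_iff₀ (by positivity)]
  rcases lt_or_ge (‖ξ‖ ^ 2) (2 * l1) with h | h
  · -- near the circle
    have h3 := ft_le_dist hρ hlam hU ξ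
    have h4 : |lam - ‖ξ‖ ^ 2| = |‖ξ‖ - √lam| * (‖ξ‖ + √lam) := by
      have h5 : lam - ‖ξ‖ ^ 2 = -((‖ξ‖ - √lam) * (‖ξ‖ + √lam)) := by
        have := Real.sq_sqrt hlam.le
        nlinarith
      rw [h5, abs_neg, abs_mul, abs_of_pos (by positivity : 0 < ‖ξ‖ + √lam)]
    have h5 : 0 < |‖ξ‖ - √lam| := by
      rw [abs_pos, sub_ne_zero]
      intro h6
      apply hξ
      rw [h6, Real.sq_sqrt hlam.le]
    have h6 : √l0 * ‖fi U ξ‖ ≤ ρ * A := by
      have h7 : |‖ξ‖ - √lam| * ((‖ξ‖ + √lam) * ‖fi U ξ‖) ≤ |‖ξ‖ - √lam| * (ρ * volume.real D) := by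
        calc |‖ξ‖ - √lam| * ((‖ξ‖ + √lam) * ‖fi U ξ‖) = ‖ft D ξ‖ := by rw [← hn, h4]; ring
          _ ≤ _ := by rw [mul_comm]; exact h3
      have h8 := le_of_mul_le_mul_left h7 h5
      calc √l0 * ‖fi U ξ‖ ≤ (‖ξ‖ + √lam) * ‖fi U ξ‖ :=
            mul_le_mul_of_nonneg_right (by linarith [norm_nonneg ξ]) (norm_nonneg _)
        _ ≤ ρ * volume.real D := h8
        _ ≤ ρ * A := mul_le_mul_of_nonneg_left hA hρ0
    have h9 : ‖fi U ξ‖ ≤ ρ * A / √l0 := by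
      rw [le_div_iff₀ hs0, mul_comm]
      exact h6
    have h10 : ‖fi U ξ‖ * (1 + ‖ξ‖ ^ 2) ≤ ρ * A / √l0 * (1 + 2 * l1) :=
      mul_le_mul h9 (by linarith) (by positivity) (by positivity)
    have h11 : 0 ≤ 2 * A * (1 + 1 / (2 * l1)) := by positivity
    linarith
  · have h3 : ‖ξ‖ ^ 2 / 2 ≤ |lam - ‖ξ‖ ^ 2| := by
      rw [abs_sub_comm]
      refine le_trans ?_ (le_abs_self _)
      linarith
    have h4 : ‖ξ‖ ^ 2 / 2 * ‖fi U ξ‖ ≤ A := by
      calc ‖ξ‖ ^ 2 / 2 * ‖fi U ξ‖ ≤ |lam - ‖ξ‖ ^ 2| * ‖fi U ξ‖ :=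
            mul_le_mul_of_nonneg_right h3 (norm_nonneg _)
        _ = ‖ft D ξ‖ := hn
        _ ≤ volume.real D := ft_norm_le hρ ξ
        _ ≤ A := hA
    have h5 : ‖fi U ξ‖ * (1 + ‖ξ‖ ^ 2) ≤ 2 * A * (1 + 1 / (2 * l1)) := by
      have h6 : 1 + ‖ξ‖ ^ 2 ≤ ‖ξ‖ ^ 2 * (1 + 1 / (2 * l1)) := by
        have h7 : 1 ≤ ‖ξ‖ ^ 2 * (1 / (2 * l1)) := by
          rw [mul_one_div, le_div_iff₀ (by positivity)]
          linarith
        linarith
      calc ‖fi U ξ‖ * (1 + ‖ξ‖ ^ 2) ≤ ‖fi U ξ‖ * (‖ξ‖ ^ 2 * (1 + 1 / (2 * l1))) :=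
            mul_le_mul_of_nonneg_left h6 (norm_nonneg _)
        _ = 2 * (‖ξ‖ ^ 2 / 2 * ‖fi U ξ‖) * (1 + 1 / (2 * l1)) := by ring
        _ ≤ 2 * A * (1 + 1 / (2 * l1)) := by
          refine mul_le_mul_of_nonneg_right (by linarith) (by positivity)
    have h11 : 0 ≤ ρ * A / √l0 * (1 + 2 * l1) := by positivity
    linarith

/-- areas of symmetric differences of star-shaped domains -/
lemma symm_le (hpol : S_pol) {R R0 : ℝ → ℝ} (hR : Continuous R) (hR0 : Continuous R0)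
    (h1 : ∀ θ, 0 ≤ R θ) (h2 : ∀ θ, 0 ≤ R0 θ) {e M : ℝ} (he : ∀ θ, |R θ - R0 θ| ≤ e)
    (he0 : 0 ≤ e) (hM : ∀ θ ∈ Icc (-π) π, R0 θ ≤ M) :
    volume.real (symmDiff (starDom R) (starDom R0)) ≤ π * (e * (2 * M + e)) := by
  rw [hpol.2.2.2 R R0 hR hR0 h1 h2]
  have key : ∀ θ ∈ Icc (-π) π, |R θ ^ 2 - R0 θ ^ 2| / 2 ≤ e * (2 * M + e) / 2 := by
    intro θ hθ
    have e1 : R θ ^ 2 - R0 θ ^ 2 = (R θ - R0 θ) * (R θ + R0 θ) := by ring
    have h3 := he θ
    have h4 := hM θ hθ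
    have h5 := h1 θ
    have h6 := h2 θ
    have h7 : R θ ≤ M + e := by linarith [(abs_le.1 h3).2]
    rw [e1, abs_mul, abs_of_nonneg (by linarith : 0 ≤ R θ + R0 θ)]
    have : |R θ - R0 θ| * (R θ + R0 θ) ≤ e * (2 * M + e) :=
      mul_le_mul h3 (by linarith) (by linarith) he0
    linarith
  have hint := intervalIntegral.norm_integral_le_of_norm_le_const (a := -π) (b := π)
    (f := fun θ => |R θ ^ 2 - R0 θ ^ 2| / 2) (C := e * (2 * M + e) / 2) (fun θ hθ => by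
      rw [uIoc_of_le (by linarith [Real.pi_pos])] at hθ
      rw [Real.norm_of_nonneg (by positivity)]
      exact key θ ⟨hθ.1.le, hθ.2⟩)
  have h7 : |π - -π| = 2 * π := by
    rw [abs_of_nonneg (by linarith [Real.pi_pos])]; ring
  rw [h7] at hint
  refine (le_abs_self _).trans (hint.trans (le_of_eq ?_))
  ring

/-- the boundary of a star-shaped domain is null -/
lemma bd_null (hpol : S_pol) {R0 : ℝ → ℝ} (hR0 : Continuous R0) (h2 : ∀ θ, 0 ≤ R0 θ) :
    volume {x : ℂ | ‖x‖ = R0 x.arg} = 0 := by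
  obtain ⟨M, hM0, hM⟩ := bdd_pi R0 hR0
  have hM' : ∀ θ ∈ Icc (-π) π, R0 θ ≤ M := fun θ hθ => (le_abs_self _).trans (hM θ hθ)
  set E : Set ℂ := {x : ℂ | ‖x‖ = R0 x.arg} with hE
  have hball : ∀ e : ℝ, 0 < e → e ≤ 1 → starDom (fun θ => R0 θ + e) ⊆ ball 0 (M + 1) := by
    intro e he he1 x hx
    rw [mem_ball_zero_iff]
    have h3 : ‖x‖ < R0 x.arg + e := hx
    have h4 := hM' x.arg ⟨(Complex.neg_pi_lt_arg x).le, Complex.arg_le_pi x⟩
    linarith
  have hsub : ∀ e : ℝ, 0 < e → E ⊆ symmDiff (starDom (fun θ => R0 θ + e)) (starDom R0) := by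
    intro e he x hx
    have hx' : ‖x‖ = R0 x.arg := hx
    left
    refine ⟨?_, ?_⟩
    · show ‖x‖ < R0 x.arg + e
      linarith
    · intro h3
      have h4 : ‖x‖ < R0 x.arg := h3
      linarith
  have hfin : ∀ e : ℝ, 0 < e → e ≤ 1 →
      volume (symmDiff (starDom (fun θ => R0 θ + e)) (starDom R0)) ≠ ⊤ := by
    intro e he he1
    refine (fin_of_ball (ρ := M + 1) ?_).ne
    intro x hx
    rcases hx with hx | hx
    · exact hball e he he1 hx.1
    · refine hball e he he1 ?_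
      have h3 : ‖x‖ < R0 x.arg := hx.1
      show ‖x‖ < R0 x.arg + e
      linarith
  have hEfin : volume E ≠ ⊤ := ((measure_mono (hsub 1 one_pos)).trans_lt
    (lt_top_iff_ne_top.2 (hfin 1 one_pos le_rfl))).ne
  have hle : ∀ e : ℝ, 0 < e → e ≤ 1 → volume.real E ≤ π * (e * (2 * M + 1)) := by
    intro e he he1
    calc volume.real E ≤ volume.real (symmDiff (starDom (fun θ => R0 θ + e)) (starDom R0)) :=
          measureReal_mono (hsub e he) (hfin e he he1)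
      _ ≤ π * (e * (2 * M + e)) := symm_le hpol (by fun_prop) hR0
          (fun θ => add_nonneg (h2 θ) he.le) h2 (fun θ => by simp [abs_of_pos he]) he.le hM'
      _ ≤ π * (e * (2 * M + 1)) := by
          refine mul_le_mul_of_nonneg_left ?_ Real.pi_pos.le
          refine mul_le_mul_of_nonneg_left (by linarith) he.le
  have hz : volume.real E = 0 := by
    refine le_antisymm ?_ measureReal_nonneg
    have ht : Tendsto (fun e : ℝ => π * (e * (2 * M + 1))) (𝓝[>] 0) (𝓝 0) := by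
      have : Continuous fun e : ℝ => π * (e * (2 * M + 1)) := by fun_prop
      have h3 := this.tendsto 0
      simp only [zero_mul, mul_zero] at h3
      exact h3.mono_left nhdsWithin_le_nhds
    refine ge_of_tendsto ht ?_
    filter_upwards [Ioo_mem_nhdsGT (zero_lt_one' ℝ)] with e he
    exact hle e he.1 he.2.le
  exact (measureReal_eq_zero_iff hEfin).1 hz

/-- dominated convergence in `L²` -/
lemma dom2 {f : ℕ → ℂ → ℂ} {g : ℂ → ℂ} {G : ℂ → ℝ} (hf : ∀ n, AEStronglyMeasurable (f n))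
    (hg : AEStronglyMeasurable g) (hG : Integrable fun w => G w ^ 2)
    (hb : ∀ n, ∀ᵐ w, ‖f n w‖ ≤ G w)
    (hl : ∀ᵐ w, Tendsto (fun n => f n w) atTop (𝓝 (g w))) :
    Tendsto (fun n => eLpNorm (f n - g) 2 volume) atTop (𝓝 0) := by
  have hgb : ∀ᵐ w, ‖g w‖ ≤ G w := by
    filter_upwards [hl, ae_all_iff.2 hb] with w h1 h2
    exact le_of_tendsto h1.norm (Eventually.of_forall h2)
  have h1 : Tendsto (fun n => ∫⁻ w, ‖(f n - g) w‖ₑ ^ (2 : ℝ)) atTop (𝓝 (∫⁻ _ : ℂ, 0)) := by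
    refine tendsto_lintegral_of_dominated_convergence'
      (fun w => ENNReal.ofReal (4 * G w ^ 2)) (fun n => ?_) (fun n => ?_) ?_ ?_
    · exact ((hf n).sub hg).enorm.pow_const _
    · filter_upwards [hb n, hgb] with w h1 h2
      have h3 : ‖(f n - g) w‖ ≤ 2 * G w := by
        rw [Pi.sub_apply]
        refine (norm_sub_le _ _).trans ?_
        linarith
      rw [← ofReal_norm, ENNReal.ofReal_rpow_of_nonneg (norm_nonneg _) (by norm_num)]
      refine ENNReal.ofReal_le_ofReal ?_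
      rw [Real.rpow_two]
      calc ‖(f n - g) w‖ ^ 2 ≤ (2 * G w) ^ 2 := pow_le_pow_left₀ (norm_nonneg _) h3 2
        _ = 4 * G w ^ 2 := by ring
    · have h2 := (hG.const_mul 4).lintegral_lt_top
      exact h2.ne
    · filter_upwards [hl] with w h1
      have h2 : Tendsto (fun n => (f n - g) w) atTop (𝓝 0) := by
        have := h1.sub_const (g w)
        rwa [sub_self] at this
      have h3 : Tendsto (fun n => ‖(f n - g) w‖ₑ) atTop (𝓝 0) := by
        have := h2.enorm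
        rwa [enorm_zero] at this
      have h4 := (ENNReal.continuous_rpow_const (y := 2)).tendsto (0 : ℝ≥0∞)
      rw [ENNReal.zero_rpow_of_pos (by norm_num)] at h4
      exact h4.comp h3
  rw [lintegral_zero] at h1
  have h4 := (ENNReal.continuous_rpow_const (y := 1 / 2)).tendsto (0 : ℝ≥0∞)
  rw [ENNReal.zero_rpow_of_pos (by norm_num)] at h4
  have h5 := h4.comp h1
  refine h5.congr fun n => ?_
  rw [eLpNorm_eq_lintegral_rpow_enorm_toReal two_ne_zero ENNReal.ofNat_ne_top]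
  simp

end Q14.SF
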