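import Mathlib
import Pool.Agent.Q14.SF.Cls1
import Pool.Agent.Q84.L2Fourier

/-!
# Job CLS: limits of star-shaped domains with a potential have a potential (helper14)
-/

set_option autoImplicit false

open MeasureTheory Metric Set Filter Topology
open scoped Real FourierTransform ENNReal

namespace Q14.SF

open Q90.SF

lemma cpx_l2 {U : ℂ → ℝ} (h : MemLp U 2) : MemLp (fun x => (U x : ℂ)) 2 := h.ofReal

lemma cpx_l1 {U : ℂ → ℝ} (h : Integrable U) : Integrable (fun x => (U x : ℂ)) := h.ofReal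

lemma circle_ae (l : ℝ) : ∀ᵐ w : ℂ, ‖-(2 * π) • w‖ ^ 2 ≠ l := by
  have h1 : volume (sphere (0 : ℂ) (√l / (2 * π))) = 0 := Measure.addHaar_sphere _ _ _
  have h2 : ∀ᵐ w : ℂ, w ∉ sphere (0 : ℂ) (√l / (2 * π)) := measure_eq_zero_iff_ae_notMem.1 h1
  filter_upwards [h2] with w hw h3
  apply hw
  rw [mem_sphere_zero_iff_norm]
  have hp : 0 < 2 * π := by positivity
  rw [norm_smul, norm_neg, Real.norm_of_nonneg hp.le] at h3
  rw [eq_div_iff hp.ne', ← h3, Real.sqrt_sq (by positivity)]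
  ring

lemma int_G (K : ℝ) : Integrable fun w : ℂ => (K / (1 + ‖w‖ ^ 2)) ^ 2 := by
  have h1 := integrable_rpow_neg_one_add_norm_sq (E := ℂ) (μ := volume) (r := 4) (by
    rw [Complex.finrank_real_complex]; norm_num)
  refine (h1.const_mul (K ^ 2)).congr (Eventually.of_forall fun w => ?_)
  simp only
  have h2 : (-4 / 2 : ℝ) = -2 := by norm_num
  rw [h2, Real.rpow_neg (by positivity), Real.rpow_two, div_pow]
  ring

theorem core (hpol : S_pol) (R : ℕ → ℝ → ℝ) (R0 : ℝ → ℝ) (lam : ℕ → ℝ) (lam0 ρ : ℝ)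
    (hR : ∀ n, Continuous (R n)) (hR0 : Continuous R0) (hpos : ∀ n θ, 0 < R n θ)
    (hpos0 : ∀ θ, 0 < R0 θ) (hunif : TendstoUniformly R R0 atTop)
    (hlam : Tendsto lam atTop (𝓝 lam0)) (hl0 : 0 < lam0) (hρ0 : 0 ≤ ρ)
    (hρ : ∀ n, starDom (R n) ⊆ ball 0 ρ) (hρ' : starDom R0 ⊆ ball 0 ρ)
    (hl1 : ∀ n, lam0 / 2 ≤ lam n) (hl2 : ∀ n, lam n ≤ 2 * lam0) (U : ℕ → ℂ → ℝ)
    (hU : ∀ n, Pot (starDom (R n)) (lam n) (U n)) : ∃ U : ℂ → ℝ, Pot (starDom R0) lam0 U := by
  obtain ⟨M, hM0, hM⟩ := bdd_pi R0 hR0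
  have hM' : ∀ θ ∈ Icc (-π) π, R0 θ ≤ M := fun θ hθ => (le_abs_self _).trans (hM θ hθ)
  have hmeas : ∀ n, MeasurableSet (starDom (R n)) := fun n => hpol.1 _ (hR n)
  have hmeas0 : MeasurableSet (starDom R0) := hpol.1 _ hR0
  set A : ℝ := volume.real (ball (0 : ℂ) ρ) with hA
  have hAn : ∀ n, volume.real (starDom (R n)) ≤ A := fun n =>
    measureReal_mono (hρ n) measure_ball_lt_top.ne
  -- areas
  have harea : Tendsto (fun n => volume.real (symmDiff (starDom (R n)) (starDom R0))) atTop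
      (𝓝 0) := by
    rw [Metric.tendsto_atTop]
    intro ε hε
    have hc : Continuous fun e : ℝ => π * (e * (2 * M + e)) := by fun_prop
    have h1 := hc.tendsto 0
    simp only [zero_mul, mul_zero] at h1
    have h2 : ∀ᶠ e : ℝ in 𝓝[>] 0, π * (e * (2 * M + e)) < ε :=
      (h1.mono_left nhdsWithin_le_nhds).eventually (gt_mem_nhds hε)
    obtain ⟨e, he, he0⟩ := (h2.and self_mem_nhdsWithin).exists
    have he0' : 0 < e := he0
    obtain ⟨N, hN⟩ := eventually_atTop.1 (Metric.tendstoUniformly_iff.1 hunif e he0')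
    refine ⟨N, fun n hn => ?_⟩
    rw [Real.dist_0_eq_abs, abs_of_nonneg measureReal_nonneg]
    refine lt_of_le_of_lt (symm_le hpol (hR n) hR0 (fun θ => (hpos n θ).le)
      (fun θ => (hpos0 θ).le) (fun θ => ?_) he0'.le hM') he
    have := hN n hn θ
    rw [Real.dist_eq, abs_sub_comm] at this
    exact this.le
  have hft : ∀ ξ, Tendsto (fun n => ft (starDom (R n)) ξ) atTop (𝓝 (ft (starDom R0) ξ)) := by
    intro ξ
    rw [tendsto_iff_norm_sub_tendsto_zero]
    exact squeeze_zero (fun n => norm_nonneg _)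
      (fun n => ft_sub_le (hmeas n) hmeas0 (hρ n) hρ' ξ) harea
  -- the transforms
  set K : ℝ := ρ * A / √(lam0 / 2) * (1 + 2 * (2 * lam0)) +
    2 * A * (1 + 1 / (2 * (2 * lam0))) with hK
  have hK0 : 0 ≤ K := by positivity
  set g : ℕ → ℂ → ℂ := fun n => 𝓕 (fun x => (U n x : ℂ)) with hg
  set Fl : ℂ → ℂ := fun w => ft (starDom R0) (-(2 * π) • w) /
    ((lam0 - ‖-(2 * π) • w‖ ^ 2 : ℝ) : ℂ) with hFl
  have hgl2 : ∀ n, MemLp (g n) 2 := fun n =>
    Q84.L2Fourier.memLp_fourier _ (cpx_l1 (hU n).l1) (cpx_l2 (hU n).l2)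
  have hgb : ∀ n, ∀ᵐ w, ‖g n w‖ ≤ K / (1 + ‖w‖ ^ 2) := by
    intro n
    filter_upwards [circle_ae (lam n)] with w hw
    have h1 : g n w = fi (U n) (-(2 * π) • w) := fourier_fi (U n) w
    rw [h1]
    refine (fi_bound hρ0 (hρ n) (hAn n) (half_pos hl0) (hl1 n) (hl2 n) (hU n) _ hw).trans ?_
    refine div_le_div_of_nonneg_left hK0 (by positivity) ?_
    have h2 : ‖w‖ ≤ ‖-(2 * π) • w‖ := by
      rw [norm_smul, norm_neg, Real.norm_of_nonneg (by positivity)]
      have : 1 ≤ 2 * π := by linarith [Real.pi_gt_three]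
      nlinarith [norm_nonneg w]
    have := pow_le_pow_left₀ (norm_nonneg _) h2 2
    linarith
  have hgl : ∀ᵐ w, Tendsto (fun n => g n w) atTop (𝓝 (Fl w)) := by
    filter_upwards [circle_ae lam0, ae_all_iff.2 fun n => circle_ae (lam n)] with w h0 hn
    have h1 : ∀ n, g n w = ft (starDom (R n)) (-(2 * π) • w) /
        ((lam n - ‖-(2 * π) • w‖ ^ 2 : ℝ) : ℂ) := by
      intro n
      have h2 : g n w = fi (U n) (-(2 * π) • w) := fourier_fi (U n) w
      rw [h2, ← (hU n).eq, mul_div_cancel_left₀]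
      · rfl
      · rw [Complex.ofReal_ne_zero, sub_ne_zero]
        exact (hn n).symm
    simp only [h1]
    refine (hft _).div ?_ ?_
    · exact ((Complex.continuous_ofReal.tendsto _).comp (hlam.sub_const _))
    · rw [Complex.ofReal_ne_zero, sub_ne_zero]
      exact h0.symm
  have hFm : Measurable Fl := by
    refine Measurable.div ?_ ?_
    · exact ((ft_cont hρ').comp (by fun_prop)).measurable
    · exact (by fun_prop : Continuous fun w : ℂ =>
        ((lam0 - ‖-(2 * π) • w‖ ^ 2 : ℝ) : ℂ)).measurable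
  have hFb : ∀ᵐ w, ‖Fl w‖ ≤ K / (1 + ‖w‖ ^ 2) := by
    filter_upwards [hgl, ae_all_iff.2 hgb] with w h1 h2
    exact le_of_tendsto h1.norm (Eventually.of_forall h2)
  have hGl2 : MemLp (fun w : ℂ => K / (1 + ‖w‖ ^ 2)) 2 := by
    rw [memLp_two_iff_integrable_sq]
    · exact int_G K
    · refine Measurable.aestronglyMeasurable ?_
      fun_prop
  have hFl2 : MemLp Fl 2 := by
    refine hGl2.mono hFm.aestronglyMeasurable ?_
    filter_upwards [hFb] with w hw
    exact hw.trans (le_abs_self _)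
  have hconv := dom2 (fun n => (hgl2 n).aestronglyMeasurable) hFm.aestronglyMeasurable
    (int_G K) hgb hgl
  -- the limit in `L²`
  set u : ℕ → Lp (α := ℂ) ℂ 2 := fun n => (cpx_l2 (hU n).l2).toLp _ with hu
  set F : Lp (α := ℂ) ℂ 2 := hFl2.toLp Fl with hF
  have h1 : ∀ n, 𝓕 (u n) = (hgl2 n).toLp (g n) := by
    intro n
    apply Lp.ext
    refine (Q84.L2Fourier.fourier_toLp_ae _ (cpx_l1 (hU n).l1) (cpx_l2 (hU n).l2)).trans ?_
    exact (MemLp.coeFn_toLp _).symm
  have h2 : Tendsto (fun n => 𝓕 (u n)) atTop (𝓝 F) := by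
    have h3 := (Lp.tendsto_Lp_iff_tendsto_eLpNorm'' (fi := atTop) g hgl2 Fl hFl2).2 hconv
    refine h3.congr fun n => ?_
    rw [h1 n]
  set V : Lp (α := ℂ) ℂ 2 := (Lp.fourierTransformₗᵢ ℂ ℂ).symm F with hV
  have hFV : 𝓕 V = F := (Lp.fourierTransformₗᵢ ℂ ℂ).apply_symm_apply F
  have h3 : Tendsto u atTop (𝓝 V) := by
    have h4 := ((Lp.fourierTransformₗᵢ ℂ ℂ).symm.continuous.tendsto F).comp h2
    refine h4.congr fun n => ?_
    exact (Lp.fourierTransformₗᵢ ℂ ℂ).symm_apply_apply (u n)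
  obtain ⟨ns, hns, hae⟩ := (tendstoInMeasure_of_tendsto_Lp h3).exists_seq_tendsto_ae
  have hUae : ∀ᵐ x, ∀ n, u n x = (U n x : ℂ) := by
    rw [ae_all_iff]
    intro n
    exact MemLp.coeFn_toLp _
  have hVlim : ∀ᵐ x, Tendsto (fun k => (U (ns k) x : ℂ)) atTop (𝓝 (V x)) := by
    filter_upwards [hae, hUae] with x h4 h5
    refine h4.congr fun k => ?_
    exact h5 (ns k)
  have hVre : ∀ᵐ x, V x = ((V x).re : ℂ) := by
    filter_upwards [hVlim] with x hx
    have h4 : Tendsto (fun k => (U (ns k) x)) atTop (𝓝 (V x).re) := by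
      have := (Complex.continuous_re.tendsto _).comp hx
      refine this.congr fun k => ?_
      simp
    exact tendsto_nhds_unique hx ((Complex.continuous_ofReal.tendsto _).comp h4)
  have hV0 : ∀ᵐ x, x ∉ starDom R0 → V x = 0 := by
    filter_upwards [hVlim, measure_eq_zero_iff_ae_notMem.1
      (bd_null hpol hR0 fun θ => (hpos0 θ).le)] with x hx hx2 hx3
    have h4 : R0 x.arg < ‖x‖ := by
      have h5 : ¬ ‖x‖ < R0 x.arg := hx3
      exact lt_of_le_of_ne (not_lt.1 h5) (Ne.symm hx2)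
    have h5 : ∀ᶠ n in atTop, R n x.arg < ‖x‖ :=
      (hunif.tendsto_at x.arg).eventually (gt_mem_nhds h4)
    have h6 : ∀ᶠ k in atTop, ((U (ns k) x : ℝ) : ℂ) = 0 := by
      filter_upwards [hns.tendsto_atTop.eventually h5] with k hk
      rw [(hU (ns k)).supp x, Complex.ofReal_zero]
      intro h7
      have h8 : ‖x‖ < R (ns k) x.arg := h7
      linarith
    exact tendsto_nhds_unique hx (tendsto_const_nhds.congr' (h6.mono fun k hk => hk.symm))
  have hVL : MemLp (fun x => (V x).re) 2 := (Lp.memLp V).re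
  refine ⟨(starDom R0).indicator fun x => (V x).re, ?_⟩
  have hl2 : MemLp ((starDom R0).indicator fun x => (V x).re) 2 := hVL.indicator hmeas0
  have hl1' : Integrable ((starDom R0).indicator fun x => (V x).re) := by
    rw [integrable_indicator_iff hmeas0]
    have : IsFiniteMeasure ((volume : Measure ℂ).restrict (starDom R0)) :=
      ⟨by rw [Measure.restrict_apply_univ]; exact fin_of_ball hρ'⟩
    exact (hVL.restrict _).integrable (by norm_num)
  have hUV : ∀ᵐ x, (((starDom R0).indicator (fun x => (V x).re) x : ℝ) : ℂ) = V x := by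
    filter_upwards [hVre, hV0] with x h4 h5
    by_cases hx : x ∈ starDom R0
    · rw [indicator_of_mem hx, ← h4]
    · rw [indicator_of_notMem hx, h5 hx, Complex.ofReal_zero]
  refine ⟨hl1', hl2, fun x hx => indicator_of_notMem hx _, ?_⟩
  -- the equation
  set W : ℂ → ℝ := (starDom R0).indicator fun x => (V x).re with hW
  have h4 : 𝓕 (fun x => (W x : ℂ)) =ᵐ[volume] Fl := by
    have h5 := Q84.L2Fourier.fourier_toLp_ae _ (cpx_l1 hl1') (cpx_l2 hl2)
    have h6 : (cpx_l2 hl2).toLp (fun x => (W x : ℂ)) = V := by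
      apply Lp.ext
      exact (MemLp.coeFn_toLp _).trans hUV
    rw [h6, hFV] at h5
    exact h5.symm.trans (MemLp.coeFn_toLp _)
  have hc1 : Continuous fun w : ℂ => ((lam0 - ‖-(2 * π) • w‖ ^ 2 : ℝ) : ℂ) *
      𝓕 (fun x => (W x : ℂ)) w := by
    refine Continuous.mul (by fun_prop) ?_
    exact VectorFourier.fourierIntegral_continuous Real.continuous_fourierChar
      (innerSL ℝ).continuous₂ (cpx_l1 hl1')
  have hc2 : Continuous fun w : ℂ => ft (starDom R0) (-(2 * π) • w) :=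
    (ft_cont hρ').comp (by fun_prop)
  have h5 : (fun w : ℂ => ((lam0 - ‖-(2 * π) • w‖ ^ 2 : ℝ) : ℂ) *
      𝓕 (fun x => (W x : ℂ)) w) =ᵐ[volume] fun w : ℂ => ft (starDom R0) (-(2 * π) • w) := by
    filter_upwards [h4, circle_ae lam0] with w h6 h7
    simp only [h6, hFl]
    rw [mul_div_cancel₀]
    rw [Complex.ofReal_ne_zero, sub_ne_zero]
    exact h7.symm
  have h6 := (hc1.ae_eq_iff_eq volume hc2).1 h5
  intro ξ
  have h7 := congrFun h6 (-(2 * π)⁻¹ • ξ)
  have h8 : -(2 * π) • (-(2 * π)⁻¹ • ξ) = ξ := by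
    rw [smul_smul]
    have : -(2 * π) * -(2 * π)⁻¹ = 1 := by
      have := Real.pi_pos
      field_simp
    rw [this, one_smul]
  rw [fourier_fi, h8] at h7
  exact h7

theorem cls : S_cls := by
  intro hpol R R0 lam lam0 hR hR0 _ _ hpos hpos0 hunif hlam _ hl0 hU
  choose U hU using hU
  obtain ⟨M, hM0, hM⟩ := bdd_pi R0 hR0
  have e1 := Metric.tendstoUniformly_iff.1 hunif 1 one_pos
  have e2 : ∀ᶠ n in atTop, lam0 / 2 ≤ lam n := hlam.eventually (le_mem_nhds (by linarith))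
  have e3 : ∀ᶠ n in atTop, lam n ≤ 2 * lam0 := hlam.eventually (ge_mem_nhds (by linarith))
  obtain ⟨N, hN⟩ := eventually_atTop.1 (e1.and (e2.and e3))
  have hshift : Tendsto (fun n : ℕ => n + N) atTop atTop := tendsto_add_atTop_nat N
  refine core hpol (fun n => R (n + N)) R0 (fun n => lam (n + N)) lam0 (M + 1)
    (fun n => hR _) hR0 (fun n => hpos _) hpos0 ?_ (hlam.comp hshift) hl0 (by linarith) ?_ ?_
    (fun n => (hN (n + N) (by omega)).2.1) (fun n => (hN (n + N) (by omega)).2.2)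
    (fun n => U (n + N)) (fun n => hU _)
  · intro s hs
    exact hshift.eventually (hunif s hs)
  · intro n x hx
    have h1 : ‖x‖ < R (n + N) x.arg := hx
    have h2 := (hN (n + N) (by omega)).1 x.arg
    rw [Real.dist_eq] at h2
    have h3 := hM x.arg ⟨(Complex.neg_pi_lt_arg x).le, Complex.arg_le_pi x⟩
    rw [mem_ball_zero_iff]
    have h4 := (abs_lt.1 h2).1
    have h5 := le_abs_self (R0 x.arg)
    linarith
  · intro x hx
    have h1 : ‖x‖ < R0 x.arg := hx
    have h3 := hM x.arg ⟨(Complex.neg_pi_lt_arg x).le, Complex.arg_le_pi x⟩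
    rw [mem_ball_zero_iff]
    have h5 := le_abs_self (R0 x.arg)
    linarith

end Q14.SF
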